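import Mathlib
import Pool.Agent.H21.CMO2

set_option autoImplicit false
open Filter Topology

namespace Pool.Agent.Results.MP_768c9c_nt.BoundedClass

/-- Q1 holds for every CMO function whose values at primes exceed `1/p` in modulus only by a
`√p`-summable amount (in particular when `|f p| ≤ 1/p` for all but finitely many primes). -/
theorem result :
    ∀ f : ℕ → ℂ,
      f 1 = 1 →
      (∀ m n : ℕ, 0 < m → 0 < n → f (m * n) = f m * f n) →
      Tendsto (fun N : ℕ => ∑ n ∈ Finset.range N, f (n + 1)) atTop (𝓝 0) →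
      Summable (fun p : Nat.Primes =>
        Real.sqrt ((p : ℕ) : ℝ) * max (‖f (p : ℕ)‖ - 1 / ((p : ℕ) : ℝ)) 0) →
      ∃ c : ℝ, 0 < c ∧ ∀ M : ℕ, ∃ N : ℕ, M ≤ N ∧ 0 < N ∧
        c / Real.sqrt (N : ℝ) ≤ ‖∑ n ∈ Finset.Icc 1 N, f n‖ := by
  intro f h1 h2 _ h4
  by_contra h
  have h5 := H21.CMO.tendsto_of_not h
  refine H21.CMO.core2 (H21.CMO.toAF_cm h1 h2) (h4.congr fun p => ?_) (h5.congr fun N => ?_)
  · simp [H21.CMO.toAF, p.2.ne_zero]
  · rw [H21.CMO.toAF_sum]

end Pool.Agent.Results.MP_768c9c_nt.BoundedClass
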