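import Mathlib
import Pool.Agent.H21.CMO2

set_option autoImplicit false
open Filter Topology

namespace Pool.Agent.Results.MP_768c9c_nt.PowerSaving

/-- Every CMO function has partial sums `Ω(N^(-θ))` for some `θ < 1`. -/
theorem result :
    ∀ f : ℕ → ℂ,
      f 1 = 1 →
      (∀ m n : ℕ, 0 < m → 0 < n → f (m * n) = f m * f n) →
      Tendsto (fun N : ℕ => ∑ n ∈ Finset.range N, f (n + 1)) atTop (𝓝 0) →
      ∃ θ : ℝ, θ < 1 ∧ ∃ c : ℝ, 0 < c ∧ ∀ M : ℕ, ∃ N : ℕ, M ≤ N ∧ 0 < N ∧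
        c / (N : ℝ) ^ θ ≤ ‖∑ n ∈ Finset.Icc 1 N, f n‖ := by
  intro f h1 h2 _
  by_contra h
  push Not at h
  have hcm := H21.CMO.toAF_cm h1 h2
  have h5 : Tendsto (fun N : ℕ => √(N : ℝ) * ‖∑ n ∈ Finset.Icc 1 N, f n‖) atTop (𝓝 0) := by
    refine H21.CMO.tendsto_of_not ?_
    push Not
    intro c hc
    simpa only [Real.sqrt_eq_rpow] using h (1 / 2) (by norm_num) c hc
  refine H21.CMO.core hcm (hcm.norm_le fun p hp => ?_) (h5.congr fun N => by rw [H21.CMO.toAF_sum])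
  have p1 : (1 : ℝ) < p := by exact_mod_cast hp.one_lt
  set a := ‖H21.CMO.toAF f p‖ with ha
  have key : ∀ θ : ℝ, 0 < θ → θ < 1 → a * (p : ℝ) ^ θ ≤ 1 := by
    intro θ t0 t1
    obtain ⟨M, hM⟩ := h θ t1 1 one_pos
    by_contra hgt
    push Not at hgt
    have e1 := (tendsto_pow_atTop_atTop_of_one_lt hgt).eventually_gt_atTop 3
    have e2 := (tendsto_pow_atTop_atTop_of_one_lt hp.one_lt).eventually_ge_atTop (M + 2)
    obtain ⟨k, k1, k2⟩ := (e1.and e2).exists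
    obtain ⟨m, hm⟩ : ∃ m, p ^ k = m + 1 := ⟨p ^ k - 1, by omega⟩
    have m0 : (1 : ℝ) ≤ m := by exact_mod_cast (by omega : 1 ≤ m)
    have b1 := hM (m + 1) (by omega) (by omega)
    have b2 := hM m (by omega) (by omega)
    rw [Finset.sum_Icc_succ_top (by omega)] at b1
    have b3 : ‖f (m + 1)‖ ≤ 1 / ((m + 1 : ℕ) : ℝ) ^ θ + 1 / (m : ℝ) ^ θ := by
      have := norm_sub_le (∑ n ∈ Finset.Icc 1 m, f n + f (m + 1)) (∑ n ∈ Finset.Icc 1 m, f n)
      rw [add_sub_cancel_left] at this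
      linarith
    have b4 : ((m + 1 : ℕ) : ℝ) ^ θ ≤ 2 * (m : ℝ) ^ θ := by
      calc ((m + 1 : ℕ) : ℝ) ^ θ ≤ (2 * m) ^ θ :=
            Real.rpow_le_rpow (by positivity) (by push_cast; linarith) t0.le
        _ = 2 ^ θ * (m : ℝ) ^ θ := Real.mul_rpow (by norm_num) (by linarith)
        _ ≤ 2 ^ (1 : ℝ) * (m : ℝ) ^ θ := by gcongr; norm_num
        _ = _ := by rw [Real.rpow_one]
    have q0 : 0 < ((m + 1 : ℕ) : ℝ) ^ θ := by positivity
    have q1 : 0 < (m : ℝ) ^ θ := by positivity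
    have b5 : 1 / (m : ℝ) ^ θ ≤ 2 / ((m + 1 : ℕ) : ℝ) ^ θ := by
      rw [div_le_div_iff₀ q1 q0]; linarith
    have b6 : ‖f (m + 1)‖ * ((m + 1 : ℕ) : ℝ) ^ θ ≤ 3 := by
      rw [← le_div_iff₀ q0]
      have : 3 / ((m + 1 : ℕ) : ℝ) ^ θ = 1 / ((m + 1 : ℕ) : ℝ) ^ θ + 2 / ((m + 1 : ℕ) : ℝ) ^ θ := by
        ring
      linarith
    have b7 : (a * (p : ℝ) ^ θ) ^ k = ‖f (m + 1)‖ * ((m + 1 : ℕ) : ℝ) ^ θ := by
      have : H21.CMO.toAF f (p ^ k) = f (m + 1) := by rw [hm]; simp [H21.CMO.toAF]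
      rw [mul_pow, ha, ← norm_pow, ← hcm.pow, this, ← hm, Nat.cast_pow, ← Real.rpow_natCast,
        ← Real.rpow_natCast, ← Real.rpow_mul (by linarith), ← Real.rpow_mul (by linarith), mul_comm θ]
    linarith
  have hc : Continuous fun θ : ℝ => a * (p : ℝ) ^ θ :=
    continuous_const.mul (Real.continuous_const_rpow (by linarith))
  have hl : a * (p : ℝ) ^ (1 : ℝ) ≤ 1 := by
    refine le_of_tendsto ((hc.tendsto 1).mono_left (nhdsWithin_le_nhds (s := Set.Iio 1))) ?_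
    filter_upwards [Ioo_mem_nhdsLT one_pos] with θ hθ using key θ hθ.1 hθ.2
  rw [Real.rpow_one] at hl
  rw [le_div_iff₀ (by linarith)]
  exact hl

end Pool.Agent.Results.MP_768c9c_nt.PowerSaving
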